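import Pool.Agent.H29.HS.Iface

/-!
# MP_a2e4e3_an, module F: moments of the main part as `N → ∞`
-/

set_option autoImplicit false

namespace Pool.Agent.H72.HS
open Pool.Agent.H29.HS MeasureTheory Finset Filter Topology

/-- third order expansion at zero -/
def E3 (P : ℝ → ℂ) (c1 c2 : ℂ) : Prop :=
  ∃ R : ℝ → ℂ, Continuous R ∧ ∀ y : ℝ, P y = 1 + c1 * y + c2 * y ^ 2 + R y * y ^ 3

theorem E3.mul {P Q : ℝ → ℂ} {a1 a2 b1 b2 : ℂ} (hP : E3 P a1 a2) (hQ : E3 Q b1 b2) :
    E3 (fun y => P y * Q y) (a1 + b1) (a2 + b2 + a1 * b1) := by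
  obtain ⟨R, hR, hP⟩ := hP
  obtain ⟨S, hS, hQ⟩ := hQ
  refine ⟨fun y => (a1 * b2 + a2 * b1) + a2 * b2 * y
    + R y * (1 + b1 * y + b2 * y ^ 2 + S y * y ^ 3) + S y * (1 + a1 * y + a2 * y ^ 2),
    by fun_prop, fun y => ?_⟩
  simp only [hP, hQ]
  ring

theorem E3_pow (α : ℂ) (n : ℕ) :
    E3 (fun y => (1 + α * y) ^ n) (n * α) (α ^ 2 * (n * (n - 1) / 2)) := by
  induction n with
  | zero => exact ⟨fun _ => 0, continuous_const, fun y => by simp⟩
  | succ n ih =>
    have h1 : E3 (fun y => 1 + α * y) α 0 := ⟨fun _ => 0, continuous_const, fun y => by simp⟩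
    have h2 := ih.mul h1
    have e1 : ((n + 1 : ℕ) : ℂ) * α = n * α + α := by push_cast; ring
    have e2 : α ^ 2 * (((n + 1 : ℕ) : ℂ) * (((n + 1 : ℕ) : ℂ) - 1) / 2)
        = α ^ 2 * (n * (n - 1) / 2) + 0 + n * α * α := by push_cast; ring
    rw [e1, e2]
    simpa only [pow_succ] using h2

theorem integrable_bdd {Ω : Type} [MeasurableSpace Ω] (μ : Measure Ω) [IsFiniteMeasure μ]
    {f : Ω → ℂ} (hf : Measurable f) (C : ℝ) (hC : ∀ x, ‖f x‖ ≤ C) : Integrable f μ :=
  Integrable.of_bound hf.aestronglyMeasurable C (Eventually.of_forall hC)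

theorem int_expand {Ω : Type} [MeasurableSpace Ω] {μ : Measure Ω} {u : Ω → ℝ} (hA : IsAlph μ u)
    {c1 c2 : ℂ} {P R : ℝ → ℂ} (hR : Continuous R)
    (hP : ∀ y : ℝ, P y = 1 + c1 * y + c2 * y ^ 2 + R y * y ^ 3) (s : ℝ) (hs : |s| ≤ 1)
    (C : ℝ) (hC : ∀ y : ℝ, |y| ≤ 2 → ‖R y‖ ≤ C) :
    ∃ r : ℂ, ‖r‖ ≤ 8 * C ∧ ∫ x, P (u x * s) ∂μ = 1 + c2 * s ^ 2 + s ^ 3 * r := by
  have := hA.prob
  have hm := hA.meas
  have hb := hA.bdd
  have hC0 : 0 ≤ C := (norm_nonneg _).trans (hC 0 (by norm_num))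
  have hbs : ∀ x, |u x * s| ≤ 2 := fun x => by
    rw [abs_mul]
    nlinarith [hb x, abs_nonneg (u x), abs_nonneg s]
  have hRm : Measurable fun x => R (u x * s) := hR.measurable.comp (hm.mul_const s)
  have hum : Measurable fun x => ((u x : ℝ) : ℂ) := Complex.measurable_ofReal.comp hm
  have hun : ∀ x, ‖((u x : ℝ) : ℂ)‖ ≤ 2 := fun x => by
    rw [Complex.norm_real]; exact hb x
  refine ⟨∫ x, R (u x * s) * (u x : ℂ) ^ 3 ∂μ, ?_, ?_⟩
  · have h := norm_integral_le_of_norm_le_const (μ := μ) (f := fun x => R (u x * s) * (u x : ℂ) ^ 3)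
      (C := 8 * C) (Eventually.of_forall fun x => by
        rw [norm_mul, norm_pow]
        have h1 : ‖((u x : ℝ) : ℂ)‖ ^ 3 ≤ 2 ^ 3 := pow_le_pow_left₀ (norm_nonneg _) (hun x) 3
        have h2 := hC _ (hbs x)
        calc ‖R (u x * s)‖ * ‖((u x : ℝ) : ℂ)‖ ^ 3 ≤ C * 2 ^ 3 :=
              mul_le_mul h2 h1 (by positivity) hC0
          _ = 8 * C := by ring)
    simpa using h
  · have i1 : Integrable (fun x => (u x : ℂ)) μ := integrable_bdd μ hum 2 hun
    have i2 : Integrable (fun x => (u x : ℂ) ^ 2) μ :=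
      integrable_bdd μ (hum.pow_const 2) (2 ^ 2) fun x => by
        rw [norm_pow]; exact pow_le_pow_left₀ (norm_nonneg _) (hun x) 2
    have i3 : Integrable (fun x => R (u x * s) * (u x : ℂ) ^ 3) μ :=
      integrable_bdd μ (hRm.mul (hum.pow_const 3)) (C * 2 ^ 3) fun x => by
        rw [norm_mul, norm_pow]
        exact mul_le_mul (hC _ (hbs x)) (pow_le_pow_left₀ (norm_nonneg _) (hun x) 3)
          (by positivity) hC0
    have e : ∀ x, P (u x * s) = 1 + (c1 * s) * (u x : ℂ) + (c2 * s ^ 2) * (u x : ℂ) ^ 2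
        + (s : ℂ) ^ 3 * (R (u x * s) * (u x : ℂ) ^ 3) := fun x => by
      rw [hP]; push_cast; ring
    simp_rw [e]
    rw [integral_add, integral_add, integral_add, integral_const_mul, integral_const_mul,
      integral_const_mul]
    · have m1 : ∫ x, (u x : ℂ) ∂μ = 0 := by
        rw [integral_complex_ofReal, hA.mean]; simp
      have m2 : ∫ x, (u x : ℂ) ^ 2 ∂μ = 1 := by
        have : ∀ x, (u x : ℂ) ^ 2 = ((u x ^ 2 : ℝ) : ℂ) := fun x => by push_cast; rfl
        simp_rw [this]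
        rw [integral_complex_ofReal, hA.var]; simp
      rw [m1, m2]
      simp
    · exact integrable_const _
    · exact i1.const_mul _
    · exact (integrable_const _).add (i1.const_mul _)
    · exact i2.const_mul _
    · exact ((integrable_const _).add (i1.const_mul _)).add (i2.const_mul _)
    · exact i3.const_mul _

theorem lim_E3 {Ω : Type} [MeasurableSpace Ω] {μ : Measure Ω} {u : Ω → ℝ} (hA : IsAlph μ u)
    {c1 c2 : ℂ} {P : ℝ → ℂ} (hP : E3 P c1 c2) :
    Tendsto (fun N : ℕ => (∫ x, P (u x * (1 / Real.sqrt N)) ∂μ) ^ N) atTop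
      (𝓝 (Complex.exp c2)) := by
  obtain ⟨R, hR, hP⟩ := hP
  obtain ⟨C, hC⟩ := (isCompact_Icc (a := (-2 : ℝ)) (b := 2)).exists_bound_of_continuousOn
    hR.continuousOn
  have hC' : ∀ y : ℝ, |y| ≤ 2 → ‖R y‖ ≤ C := fun y hy => hC y ⟨by linarith [(abs_le.1 hy).1],
    (abs_le.1 hy).2⟩
  have hC0 : 0 ≤ C := (norm_nonneg _).trans (hC' 0 (by norm_num))
  have key : Tendsto (fun N : ℕ => (N : ℂ) * ((∫ x, P (u x * (1 / Real.sqrt N)) ∂μ) - 1)) atTop
      (𝓝 c2) := by
    rw [tendsto_iff_norm_sub_tendsto_zero]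
    have hlim : Tendsto (fun N : ℕ => 1 / Real.sqrt N * (8 * C)) atTop (𝓝 0) := by
      have : Tendsto (fun N : ℕ => 1 / Real.sqrt N) atTop (𝓝 0) := by
        simp_rw [one_div]
        exact tendsto_inv_atTop_zero.comp (Real.tendsto_sqrt_atTop.comp tendsto_natCast_atTop_atTop)
      simpa using this.mul_const (8 * C)
    refine squeeze_zero' (Eventually.of_forall fun _ => norm_nonneg _) ?_ hlim
    filter_upwards [eventually_ge_atTop 1] with N hN
    have hN' : (1 : ℝ) ≤ N := by exact_mod_cast hN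
    have hs1 : 1 ≤ Real.sqrt N := by rw [Real.one_le_sqrt]; exact hN'
    have hs0 : 0 < Real.sqrt N := by linarith
    have hs : |1 / Real.sqrt N| ≤ 1 := by
      rw [abs_of_pos (by positivity)]
      rw [div_le_one hs0]; exact hs1
    obtain ⟨r, hr, he⟩ := int_expand hA hR hP (1 / Real.sqrt N) hs C hC'
    rw [he]
    have hsq : ((1 / Real.sqrt N : ℝ) : ℂ) ^ 2 = 1 / N := by
      have : ((1 / Real.sqrt N : ℝ)) ^ 2 = 1 / N := by
        rw [div_pow, Real.sq_sqrt (by positivity)]; simp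
      rw [← Complex.ofReal_pow, this]; simp
    have hN0 : (N : ℂ) ≠ 0 := by
      have : N ≠ 0 := by omega
      exact_mod_cast this
    have e : (N : ℂ) * (1 + c2 * ((1 / Real.sqrt N : ℝ) : ℂ) ^ 2
        + ((1 / Real.sqrt N : ℝ) : ℂ) ^ 3 * r - 1) - c2 = ((1 / Real.sqrt N : ℝ) : ℂ) * r := by
      have e3 : ((1 / Real.sqrt N : ℝ) : ℂ) ^ 3 = 1 / N * ((1 / Real.sqrt N : ℝ) : ℂ) := by
        rw [pow_succ, hsq]
      rw [hsq, e3]
      field_simp
      ring
    rw [e, norm_mul, Complex.norm_real, Real.norm_eq_abs, abs_of_pos (by positivity)]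
    exact mul_le_mul_of_nonneg_left hr (by positivity)
  have := Complex.tendsto_one_add_pow_exp_of_tendsto key
  refine this.congr fun N => ?_
  congr 1
  ring

theorem mev_fcoef (w : ℝ) (N : ℕ) (x : Fin N → ℝ) :
    ((mev (fcoef w N) x : ℝ) : ℂ) = ((Real.sqrt 2 * Real.exp (-w ^ 2 / 2) / 2 : ℝ) : ℂ) *
      (∏ k, (1 + (-(Complex.I * w)) * ((x k * (1 / Real.sqrt N) : ℝ) : ℂ)) +
        ∏ k, (1 + (Complex.I * w) * ((x k * (1 / Real.sqrt N) : ℝ) : ℂ))) := by
  set Z : ℂ := ∏ k, (1 + (Complex.I * w) * ((x k * (1 / Real.sqrt N) : ℝ) : ℂ)) with hZ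
  have hconj : ∏ k, (1 + (-(Complex.I * w)) * ((x k * (1 / Real.sqrt N) : ℝ) : ℂ))
      = (starRingEnd ℂ) Z := by
    rw [hZ, map_prod]
    refine Finset.prod_congr rfl fun k _ => ?_
    simp
  have hre : mev (fcoef w N) x = Real.sqrt 2 * Real.exp (-w ^ 2 / 2) * Z.re := by
    have hZ2 : Z = ∑ K : Finset (Fin N), (Complex.I * w / (Real.sqrt N : ℝ)) ^ K.card
        * ((∏ k ∈ K, x k : ℝ) : ℂ) := by
      rw [hZ, Finset.prod_one_add, Finset.powerset_univ]
      refine Finset.sum_congr rfl fun K _ => ?_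
      rw [Complex.ofReal_prod, ← Finset.prod_const, ← Finset.prod_mul_distrib]
      refine Finset.prod_congr rfl fun k _ => ?_
      push_cast
      ring
    rw [hZ2, Complex.re_sum, Finset.mul_sum]
    unfold mev fcoef
    refine Finset.sum_congr rfl fun K _ => ?_
    rw [Complex.re_mul_ofReal]
    ring
  rw [hconj, hre, add_comm, Complex.add_conj]
  push_cast
  ring

theorem fmain : FStmt := by
  intro Ω _ μ u hA w j hw
  have := hA.prob
  set A : ℝ := Real.sqrt 2 * Real.exp (-w ^ 2 / 2) / 2 with hAdef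
  set P : ℕ → ℝ → ℂ := fun b y =>
    (1 + (-(Complex.I * w)) * y) ^ b * (1 + (Complex.I * w) * y) ^ (j - b) with hPdef
  have hPc : ∀ b, Continuous (P b) := fun b => by
    simp only [hPdef]; fun_prop
  -- the integral as a finite sum
  have hI : ∀ N : ℕ, ((∫ ω, (mev (fcoef w N) (fun k => u (ω k))) ^ j
      ∂(Measure.pi fun _ : Fin N => μ) : ℝ) : ℂ) =
      (A : ℂ) ^ j * ∑ b ∈ Finset.range (j + 1),
        (∫ x, P b (u x * (1 / Real.sqrt N)) ∂μ) ^ N * (j.choose b : ℂ) := by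
    intro N
    have e1 : ∀ ω : Fin N → Ω, (((mev (fcoef w N) (fun k => u (ω k))) ^ j : ℝ) : ℂ) =
        ∑ b ∈ Finset.range (j + 1), (A : ℂ) ^ j *
          ((∏ k, P b (u (ω k) * (1 / Real.sqrt N))) * (j.choose b : ℂ)) := by
      intro ω
      rw [Complex.ofReal_pow, mev_fcoef, mul_pow, add_pow, Finset.mul_sum]
      refine Finset.sum_congr rfl fun b _ => ?_
      simp only [hPdef]
      rw [Finset.prod_mul_distrib, Finset.prod_pow, Finset.prod_pow]
    rw [← integral_complex_ofReal]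
    simp_rw [e1]
    rw [integral_finsetSum, Finset.mul_sum]
    · refine Finset.sum_congr rfl fun b _ => ?_
      rw [integral_const_mul, integral_mul_const]
      congr 2
      have := integral_fintype_prod_eq_prod (𝕜 := ℂ) (ι := Fin N)
        (fun _ => fun x => P b (u x * (1 / Real.sqrt N))) (μ := fun _ => μ)
      rw [this]
      simp
    · intro b _
      have hbc : ∃ C : ℝ, ∀ x : Ω, ‖P b (u x * (1 / Real.sqrt N))‖ ≤ C := by
        obtain ⟨C, hC⟩ := (isCompact_Icc (a := (-2 * (1 / Real.sqrt N) : ℝ))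
          (b := 2 * (1 / Real.sqrt N))).exists_bound_of_continuousOn (hPc b).continuousOn
        refine ⟨C, fun x => hC _ ?_⟩
        have hs : 0 ≤ 1 / Real.sqrt N := by positivity
        have := abs_le.1 (hA.bdd x)
        exact ⟨mul_le_mul_of_nonneg_right (by linarith) hs, mul_le_mul_of_nonneg_right this.2 hs⟩
      obtain ⟨C, hC⟩ := hbc
      refine integrable_bdd _ ?_ (‖(A : ℂ) ^ j‖ * ((∏ _k : Fin N, C) * ‖(j.choose b : ℂ)‖)) ?_
      · refine measurable_const.mul (Measurable.mul_const ?_ _)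
        refine Finset.measurable_prod _ fun k _ => ?_
        exact (hPc b).measurable.comp ((hA.meas.comp (measurable_pi_apply k)).mul_const _)
      · intro ω
        rw [norm_mul, norm_mul, norm_prod]
        gcongr with k _
        exact hC _
  have hlim : Tendsto (fun N : ℕ => ((∫ ω, (mev (fcoef w N) (fun k => u (ω k))) ^ j
      ∂(Measure.pi fun _ : Fin N => μ) : ℝ) : ℂ)) atTop (𝓝 ((gmom w j : ℝ) : ℂ)) := by
    simp_rw [hI]
    have hg : ((gmom w j : ℝ) : ℂ) = (A : ℂ) ^ j * ∑ b ∈ Finset.range (j + 1),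
        Complex.exp ((-(Complex.I * w)) ^ 2 * (b * (b - 1) / 2)
          + (Complex.I * w) ^ 2 * (((j - b : ℕ) : ℂ) * (((j - b : ℕ) : ℂ) - 1) / 2)
          + b * (-(Complex.I * w)) * (((j - b : ℕ) : ℂ) * (Complex.I * w)))
          * (j.choose b : ℂ) := by
      unfold gmom
      rw [hAdef, Complex.ofReal_mul, Complex.ofReal_sum, Finset.mul_sum, Finset.mul_sum]
      refine Finset.sum_congr rfl fun b hb => ?_
      have hbj : b ≤ j := by
        have := Finset.mem_range.1 hb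
        omega
      have hI2 : Complex.I ^ 2 = -1 := Complex.I_sq
      have e2 : (-(Complex.I * w)) ^ 2 * ((b : ℂ) * (b - 1) / 2)
          + (Complex.I * w) ^ 2 * (((j - b : ℕ) : ℂ) * (((j - b : ℕ) : ℂ) - 1) / 2)
          + b * (-(Complex.I * w)) * (((j - b : ℕ) : ℂ) * (Complex.I * w))
          = ((-w ^ 2 * ((j : ℝ) - 2 * b) ^ 2 / 2 + j * (w ^ 2 / 2) : ℝ) : ℂ) := by
        rw [Nat.cast_sub hbj]
        push_cast
        linear_combination (w ^ 2 * (b * (b - 1) / 2) + w ^ 2 * ((j - b) * ((j - b) - 1) / 2)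
          - b * (j - b) * w ^ 2 : ℂ) * hI2
      rw [e2, ← Complex.ofReal_exp, Real.exp_add]
      have e3 : Real.exp (j * (w ^ 2 / 2)) = (Real.exp (-w ^ 2 / 2)) ^ j * Real.exp (j * (w ^ 2 / 2))
          * Real.exp (j * (w ^ 2 / 2)) := by
        rw [← Real.exp_nat_mul, ← Real.exp_add, ← Real.exp_add]
        congr 1
        ring
      have e4 : (Real.exp (-w ^ 2 / 2)) ^ j * Real.exp (j * (w ^ 2 / 2)) = 1 := by
        rw [← Real.exp_nat_mul, ← Real.exp_add]
        rw [show (j : ℝ) * (-w ^ 2 / 2) + j * (w ^ 2 / 2) = 0 by ring, Real.exp_zero]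
      have e5 : Real.sqrt 2 ^ j / 2 ^ j * ((j.choose b : ℝ) * Real.exp (-w ^ 2 * ((j : ℝ) - 2 * b) ^ 2 / 2))
          = (Real.sqrt 2 * Real.exp (-w ^ 2 / 2) / 2) ^ j *
            (Real.exp (-w ^ 2 * ((j : ℝ) - 2 * b) ^ 2 / 2) * Real.exp (j * (w ^ 2 / 2))
              * (j.choose b : ℝ)) := by
        rw [div_pow, mul_pow]
        calc Real.sqrt 2 ^ j / 2 ^ j * ((j.choose b : ℝ) * Real.exp (-w ^ 2 * ((j : ℝ) - 2 * b) ^ 2 / 2))
            = Real.sqrt 2 ^ j / 2 ^ j * ((j.choose b : ℝ)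
              * Real.exp (-w ^ 2 * ((j : ℝ) - 2 * b) ^ 2 / 2)) * 1 := by ring
          _ = _ := by rw [← e4]; ring
      exact_mod_cast congrArg (fun r : ℝ => (r : ℂ)) e5
    rw [hg]
    refine Tendsto.const_mul _ (tendsto_finsetSum _ fun b _ => ?_)
    refine Tendsto.mul_const _ ?_
    exact lim_E3 hA ((E3_pow (-(Complex.I * w)) b).mul (E3_pow (Complex.I * w) (j - b)))
  have := (Complex.continuous_re.tendsto _).comp hlim
  simpa [Function.comp_def] using this

end Pool.Agent.H72.HS
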